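import Pool.Agent.ATT.Stmts
import Pool.Agent.Helper77_LQF.JAL

/-!
# Tank ATT (MP_1906c1_mp), row UJT: the functional has no drift (helper18)
-/

set_option autoImplicit false

open MeasureTheory ProbabilityTheory Function Filter

open scoped ENNReal BigOperators Topology NNReal Matrix

noncomputable section

namespace Pool.Agent.ATT.H18

open Pool.Agent.LE.QF (HJ HM gG LL dC JalStmt)
open Pool.Agent.KIL (KJ)

section one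

variable {ι X : Type} [Fintype ι] [DecidableEq ι] [Fintype X] [DecidableEq X]

/-- the term of a pair -/
theorem pair (pej : PejStmt) {e : ι → X} {q : ℝ × (ι → ℝ)} {Gm : ℝ × (ι → ℝ) → Matrix X X ℂ}
    {kp : ℝ → X → ℝ} {G : Matrix X X ℂ} {κ g : X → ℝ} {μ : ι → ℂ} (h : KJ e q Gm kp G κ g μ)
    (Go : Matrix X X ℂ) (x y : X) (l B ρ ε : ℝ) (hl : 0 ≤ l) :
    ∃ (g' : ι → ℝ) (l' : ℝ),
      HJ (fun r : ℝ × (ι → ℝ) => pe l (B - ρ * r.1 - l * ε) (Gm r x y - Go x y)) q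
        (pe l (B - ρ * q.1 - l * ε) (G x y - Go x y)) g' l' ∧
      ∀ (δ : ℝ) (p p' : ι → ℝ), 0 ≤ δ → 0 ≤ pe l (B - ρ * q.1 - l * ε) (G x y - Go x y) →
        (∀ c, ‖μ c‖ ≤ δ ∧ ‖G x (e c)‖ ≤ p c ∧ ‖G y (e c)‖ ≤ p' c) →
        ∑ c, cs l δ (p c) (p' c) ≤ ρ → l' ≤ 0 := by
  obtain ⟨g', l', h1, h2⟩ := pej ι q (fun r => Gm r x y) (G x y) (Go x y)
    (∑ c, G x (e c) * μ c * G (e c) y) (fun c => gG G (e c) x y) l (B - l * ε) ρ hl (h.hG x y)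
  have e1 : ∀ t : ℝ, B - l * ε - ρ * t = B - ρ * t - l * ε := fun t => by ring
  simp only [e1] at h1 h2
  refine ⟨g', l', h1, ?_⟩
  intro δ p p' hδ hpe hb hρ
  refine h2.trans (mul_nonpos_of_nonneg_of_nonpos hpe ?_)
  have b0 : ∀ c, 0 ≤ p c := fun c => (norm_nonneg _).trans (hb c).2.1
  have b0' : ∀ c, 0 ≤ p' c := fun c => (norm_nonneg _).trans (hb c).2.2
  have b1 : ‖∑ c, G x (e c) * μ c * G (e c) y‖ ≤ ∑ c, δ * (p c * p' c) := by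
    refine (norm_sum_le _ _).trans (Finset.sum_le_sum fun c _ => ?_)
    rw [norm_mul, norm_mul, h.hs (e c) y]
    calc ‖G x (e c)‖ * ‖μ c‖ * ‖G y (e c)‖ ≤ p c * δ * p' c :=
          mul_le_mul (mul_le_mul (hb c).2.1 (hb c).1 (norm_nonneg _) (b0 c)) (hb c).2.2
            (norm_nonneg _) (mul_nonneg (b0 c) hδ)
      _ = δ * (p c * p' c) := by ring
  have b2 : ∑ c, ‖gG G (e c) x y‖ ^ 2 ≤ ∑ c, (p c * p' c) ^ 2 := by
    refine Finset.sum_le_sum fun c _ => ?_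
    unfold gG
    rw [norm_neg, norm_mul, h.hs (e c) y]
    exact pow_le_pow_left₀ (by positivity)
      (mul_le_mul (hb c).2.1 (hb c).2.2 (norm_nonneg _) (b0 c)) 2
  have b3 : l * ‖∑ c, G x (e c) * μ c * G (e c) y‖ ≤ l * ∑ c, δ * (p c * p' c) :=
    mul_le_mul_of_nonneg_left b1 hl
  have b4 : l ^ 2 / 2 * ∑ c, ‖gG G (e c) x y‖ ^ 2 ≤ l ^ 2 / 2 * ∑ c, (p c * p' c) ^ 2 :=
    mul_le_mul_of_nonneg_left b2 (by positivity)
  have b5 : ∑ c, cs l δ (p c) (p' c) = l * ∑ c, δ * (p c * p' c) +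
      l ^ 2 / 2 * ∑ c, (p c * p' c) ^ 2 := by
    rw [Finset.mul_sum, Finset.mul_sum, ← Finset.sum_add_distrib]
    refine Finset.sum_congr rfl fun c _ => ?_
    unfold cs
    ring
  linarith

/-- the exponential of a jet -/
theorem expo {q : ℝ × (ι → ℝ)} {m : ℝ × (ι → ℝ) → ℝ} {v l' : ℝ} {g' : ι → ℝ}
    (h1 : HJ m q v g' l') (B ρ lm εm : ℝ) :
    ∃ g'' : ι → ℝ, HJ (fun r : ℝ × (ι → ℝ) => Real.exp (B - ρ * r.1 + lm * (m r - εm))) q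
      (Real.exp (B - ρ * q.1 + lm * (v - εm))) g''
      (Real.exp (B - ρ * q.1 + lm * (v - εm)) *
        (-ρ + lm * l' + 1 / 2 * ∑ c, (lm * g' c) ^ 2)) := by
  obtain ⟨hc, -, ha, -, hcomp, -, ht, -⟩ := Pool.Agent.LE.QF.H77.jal ι ℝ q
  have hcon : ∀ v : ℝ, HJ (fun _ : ℝ × (ι → ℝ) => v) q v (fun _ => 0) 0 := hc
  have htime : HJ (fun r : ℝ × (ι → ℝ) => B - ρ * r.1) q (B - ρ * q.1) (fun _ => 0) (-ρ) := by
    have t1 := ht (fun t => B - ρ * t) (by fun_prop)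
    have t2 : deriv (fun t : ℝ => B - ρ * t) q.1 = -ρ := by
      have t3 : HasDerivAt (fun t : ℝ => B - ρ * t) (-(ρ * 1)) q.1 :=
        ((hasDerivAt_id q.1).const_mul ρ).const_sub B
      rw [t3.deriv]
      ring
    rw [t2] at t1
    exact t1
  have h3 := (ha _ _ _ _ _ _ _ _ h1 (hcon εm)).2.1
  have h4 := (ha _ _ _ _ _ _ _ _ (hcon lm) h3).2.2
  have h5 := (ha _ _ _ _ _ _ _ _ htime h4).1
  have h6 := (hcomp _ _ _ _ h5).2 Real.exp Real.contDiff_exp.contDiffAt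
  simp only [Real.deriv_exp, zero_add, add_zero, sub_zero, zero_mul,
    Finset.sum_const_zero] at h6
  have e1 : Real.exp (B - ρ * q.1 + lm * (v - εm)) *
      (-ρ + lm * l' + 1 / 2 * ∑ c, (lm * g' c) ^ 2) =
      Real.exp (B - ρ * q.1 + lm * (v - εm)) * (-ρ + lm * l') +
      Real.exp (B - ρ * q.1 + lm * (v - εm)) / 2 * ∑ c, (lm * g' c) ^ 2 := by ring
  rw [e1]
  exact ⟨_, h6⟩

/-- the term of a site -/
theorem site (mxj : MxjStmt) {e : ι → X} {q : ℝ × (ι → ℝ)} {Gm : ℝ × (ι → ℝ) → Matrix X X ℂ}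
    {kp : ℝ → X → ℝ} {G : Matrix X X ℂ} {κ g : X → ℝ} {μ : ι → ℂ} (h : KJ e q Gm kp G κ g μ)
    (Go : Matrix X X ℂ) (A₃ : Finset X) (hA : ∀ c, e c ∉ A₃) (x : X) (B ρ lm εm : ℝ) :
    ∃ (g' : ι → ℝ) (l' : ℝ),
      HJ (fun r : ℝ × (ι → ℝ) => Real.exp (B - ρ * r.1 + lm * (mx (kp r.1) A₃ (Gm r) Go x - εm))) q
        (Real.exp (B - ρ * q.1 + lm * (mx κ A₃ G Go x - εm))) g' l' ∧
      ∀ (δ gb : ℝ) (p : ι → ℝ), 0 ≤ δ → 0 ≤ gb → 0 ≤ lm → 0 ≤ εm → (∀ y ∈ A₃, 0 ≤ κ y) →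
        mx κ A₃ G Go x ≤ εm → (∀ c, ∑ y ∈ A₃, κ y * ‖G (e c) y‖ ^ 2 ≤ gb) →
        (∀ c, ‖μ c‖ ≤ δ ∧ ‖G x (e c)‖ ≤ p c) →
        ∑ c, cm lm εm δ gb (p c) ≤ ρ → l' ≤ 0 := by
  obtain ⟨g', l', h1, h2⟩ := mxj ι X e q Gm kp G Go κ g μ A₃ x h hA
  obtain ⟨g'', h6⟩ := expo h1 B ρ lm εm
  refine ⟨_, _, h6, ?_⟩
  intro δ gb p hδ hgb hlm hεm hκ hmx hgg hb hρ
  obtain ⟨h7, h8⟩ := h2 εm gb hκ hmx hgb hgg
  have b0 : ∀ c, 0 ≤ p c := fun c => (norm_nonneg _).trans (hb c).2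
  have b1 : l' ≤ ∑ c, (2 * δ * p c * Real.sqrt (εm * gb) + p c ^ 2 * gb) := by
    refine h7.trans (Finset.sum_le_sum fun c _ => add_le_add ?_ ?_)
    · refine mul_le_mul_of_nonneg_right ?_ (Real.sqrt_nonneg _)
      exact mul_le_mul (mul_le_mul_of_nonneg_left (hb c).1 (by norm_num)) (hb c).2
        (norm_nonneg _) (by positivity)
    · exact mul_le_mul_of_nonneg_right (pow_le_pow_left₀ (norm_nonneg _) (hb c).2 2) hgb
  have b2 : ∑ c, (lm * g' c) ^ 2 ≤ ∑ c, lm ^ 2 * (4 * (p c ^ 2 * (εm * gb))) := by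
    refine Finset.sum_le_sum fun c _ => ?_
    rw [mul_pow]
    refine mul_le_mul_of_nonneg_left ((h8 c).trans ?_) (by positivity)
    refine mul_le_mul_of_nonneg_left ?_ (by norm_num)
    exact mul_le_mul_of_nonneg_right (pow_le_pow_left₀ (norm_nonneg _) (hb c).2 2)
      (mul_nonneg hεm hgb)
  have b3 : ∑ c, cm lm εm δ gb (p c) =
      lm * ∑ c, (2 * δ * p c * Real.sqrt (εm * gb) + p c ^ 2 * gb) +
      1 / 2 * ∑ c, lm ^ 2 * (4 * (p c ^ 2 * (εm * gb))) := by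
    rw [Finset.mul_sum, Finset.mul_sum, ← Finset.sum_add_distrib]
    refine Finset.sum_congr rfl fun c _ => ?_
    unfold cm
    ring
  have b4 : lm * l' ≤ lm * ∑ c, (2 * δ * p c * Real.sqrt (εm * gb) + p c ^ 2 * gb) :=
    mul_le_mul_of_nonneg_left b1 hlm
  have b5 : -ρ + lm * l' + 1 / 2 * ∑ c, (lm * g' c) ^ 2 ≤ 0 := by linarith
  exact mul_nonpos_of_nonneg_of_nonpos (Real.exp_pos _).le b5

/-- the term of `MM` -/
theorem whole (maj : MajStmt) {e : ι → X} {q : ℝ × (ι → ℝ)} {Gm : ℝ × (ι → ℝ) → Matrix X X ℂ}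
    {kp : ℝ → X → ℝ} {G : Matrix X X ℂ} {κ g : X → ℝ} {μ : ι → ℂ} (h : KJ e q Gm kp G κ g μ)
    (Go : Matrix X X ℂ) (A₃ : Finset X) (hA : ∀ c, e c ∉ A₃) (B ρ lM εM : ℝ) :
    ∃ (g' : ι → ℝ) (l' : ℝ),
      HJ (fun r : ℝ × (ι → ℝ) => Real.exp (B - ρ * r.1 + lM * (MM (kp r.1) A₃ (Gm r) Go - εM))) q
        (Real.exp (B - ρ * q.1 + lM * (MM κ A₃ G Go - εM))) g' l' ∧
      ∀ (δ gb : ℝ), 0 ≤ δ → 0 ≤ gb → 0 ≤ lM → 0 ≤ εM → (∀ y ∈ A₃, 0 ≤ κ y) →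
        MM κ A₃ G Go ≤ εM → (∀ c, ∑ y ∈ A₃, κ y * ‖G (e c) y‖ ^ 2 ≤ gb) →
        (∀ c, ‖μ c‖ ≤ δ) → (Fintype.card ι : ℝ) * cM lM εM δ gb ≤ ρ → l' ≤ 0 := by
  obtain ⟨g', l', h1, h2⟩ := maj ι X e q Gm kp G Go κ g μ A₃ h hA
  obtain ⟨g'', h6⟩ := expo h1 B ρ lM εM
  refine ⟨_, _, h6, ?_⟩
  intro δ gb hδ hgb hlM hεM hκ hmx hgg hb hρ
  obtain ⟨h7, h8⟩ := h2 εM gb hκ hmx hgb hgg
  have b1 : l' ≤ ∑ _c : ι, (2 * δ * gb * Real.sqrt εM + gb ^ 2) := by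
    refine h7.trans (Finset.sum_le_sum fun c _ => add_le_add ?_ le_rfl)
    refine mul_le_mul_of_nonneg_right ?_ (Real.sqrt_nonneg _)
    exact mul_le_mul_of_nonneg_right (mul_le_mul_of_nonneg_left (hb c) (by norm_num)) hgb
  have b2 : ∑ c, (lM * g' c) ^ 2 ≤ ∑ _c : ι, lM ^ 2 * (4 * (gb ^ 2 * εM)) := by
    refine Finset.sum_le_sum fun c _ => ?_
    rw [mul_pow]
    exact mul_le_mul_of_nonneg_left (h8 c) (by positivity)
  rw [Finset.sum_const, Finset.card_univ, nsmul_eq_mul] at b1 b2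
  have b4 : lM * l' ≤ lM * ((Fintype.card ι : ℝ) * (2 * δ * gb * Real.sqrt εM + gb ^ 2)) :=
    mul_le_mul_of_nonneg_left b1 hlM
  have b3 : (Fintype.card ι : ℝ) * cM lM εM δ gb =
      lM * ((Fintype.card ι : ℝ) * (2 * δ * gb * Real.sqrt εM + gb ^ 2)) +
      1 / 2 * ((Fintype.card ι : ℝ) * (lM ^ 2 * (4 * (gb ^ 2 * εM)))) := by
    unfold cM
    ring
  have b5 : -ρ + lM * l' + 1 / 2 * ∑ c, (lM * g' c) ^ 2 ≤ 0 := by linarith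
  exact mul_nonpos_of_nonneg_of_nonpos (Real.exp_pos _).le b5

end one

/-- UJT -/
theorem ujt (peb : PebStmt) (pej : PejStmt) (mxj : MxjStmt) (maj : MajStmt) : UjtStmt := by
  intro ι X _ _ _ _ e q Gm kp G Go κ g μ W δ gb h hδ hgb h32 h21 hec hκ hx hlm hεm hlM hεM hB hBm
    hBM hρ hρm hρM hgood
  classical
  obtain ⟨-, -, ha, -, -, hsum, -, -⟩ := Pool.Agent.LE.QF.H77.jal ι ℝ q
  have p0 : ∀ x ∈ W.A₁, ∀ y : X,
      0 ≤ pe (W.l x) (W.B x y - W.ρ x y * q.1 - W.l x * W.ε x) (G x y - Go x y) := fun x hxx y =>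
    (peb (W.l x) _ 0 _ (hx x hxx).1).1
  have p1 : ∀ x ∈ W.A₁, 0 ≤ ∑ y ∈ W.A₂,
      pe (W.l x) (W.B x y - W.ρ x y * q.1 - W.l x * W.ε x) (G x y - Go x y) := fun x hxx =>
    Finset.sum_nonneg fun y _ => p0 x hxx y
  have p2 : 0 ≤ ∑ x ∈ W.A₁, ∑ y ∈ W.A₂,
      pe (W.l x) (W.B x y - W.ρ x y * q.1 - W.l x * W.ε x) (G x y - Go x y) :=
    Finset.sum_nonneg p1
  have p3 : 0 ≤ ∑ x ∈ W.A₂, Real.exp (W.Bm x - W.ρm x * q.1 + W.lm * (mx κ W.A₃ G Go x - W.εm)) :=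
    Finset.sum_nonneg fun x _ => (Real.exp_pos _).le
  have p4 : 0 < Real.exp (W.BM - W.ρM * q.1 + W.lM * (MM κ W.A₃ G Go - W.εM)) :=
    Real.exp_pos _
  have hU : W.U κ Go q.1 G = (∑ x ∈ W.A₁, ∑ y ∈ W.A₂,
      pe (W.l x) (W.B x y - W.ρ x y * q.1 - W.l x * W.ε x) (G x y - Go x y)) +
      ∑ x ∈ W.A₂, Real.exp (W.Bm x - W.ρm x * q.1 + W.lm * (mx κ W.A₃ G Go x - W.εm)) +
      Real.exp (W.BM - W.ρM * q.1 + W.lM * (MM κ W.A₃ G Go - W.εM)) := rfl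
  -- good points
  have good : W.U κ Go q.1 G < 1 → (∀ x ∈ W.A₁, ∀ y ∈ W.A₂, ‖G x y - Go x y‖ ≤ 2 * W.ε x) ∧
      (∀ x ∈ W.A₂, mx κ W.A₃ G Go x ≤ W.εm) ∧ MM κ W.A₃ G Go ≤ W.εM := by
    intro hlt
    rw [hU] at hlt
    refine ⟨?_, ?_, ?_⟩
    · intro x hxx y hy
      have q1 : pe (W.l x) (W.B x y - W.ρ x y * q.1 - W.l x * W.ε x) (G x y - Go x y) ≤
          ∑ y ∈ W.A₂, pe (W.l x) (W.B x y - W.ρ x y * q.1 - W.l x * W.ε x) (G x y - Go x y) :=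
        Finset.single_le_sum (f := fun y =>
          pe (W.l x) (W.B x y - W.ρ x y * q.1 - W.l x * W.ε x) (G x y - Go x y))
          (fun y _ => p0 x hxx y) hy
      have q2 : ∑ y ∈ W.A₂, pe (W.l x) (W.B x y - W.ρ x y * q.1 - W.l x * W.ε x)
          (G x y - Go x y) ≤ ∑ x ∈ W.A₁, ∑ y ∈ W.A₂,
            pe (W.l x) (W.B x y - W.ρ x y * q.1 - W.l x * W.ε x) (G x y - Go x y) :=
        Finset.single_le_sum (f := fun x => ∑ y ∈ W.A₂,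
          pe (W.l x) (W.B x y - W.ρ x y * q.1 - W.l x * W.ε x) (G x y - Go x y))
          (fun x hxx => p1 x hxx) hxx
      exact (peb (W.l x) (W.B x y - W.ρ x y * q.1) (W.ε x) (G x y - Go x y) (hx x hxx).1).2
        (hB x hxx y hy) (by linarith)
    · intro x hxx
      have q1 : Real.exp (W.Bm x - W.ρm x * q.1 + W.lm * (mx κ W.A₃ G Go x - W.εm)) ≤
          ∑ x ∈ W.A₂, Real.exp (W.Bm x - W.ρm x * q.1 + W.lm * (mx κ W.A₃ G Go x - W.εm)) :=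
        Finset.single_le_sum (f := fun x =>
          Real.exp (W.Bm x - W.ρm x * q.1 + W.lm * (mx κ W.A₃ G Go x - W.εm)))
          (fun x _ => (Real.exp_pos _).le) hxx
      have q2 : Real.exp (W.Bm x - W.ρm x * q.1 + W.lm * (mx κ W.A₃ G Go x - W.εm)) < 1 := by
        linarith
      rw [Real.exp_lt_one_iff] at q2
      have q3 := hBm x hxx
      by_contra hcon
      push Not at hcon
      have q4 : 0 < W.lm * (mx κ W.A₃ G Go x - W.εm) := mul_pos hlm (by linarith)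
      linarith
    · have q2 : Real.exp (W.BM - W.ρM * q.1 + W.lM * (MM κ W.A₃ G Go - W.εM)) < 1 := by
        linarith
      rw [Real.exp_lt_one_iff] at q2
      by_contra hcon
      push Not at hcon
      have q4 : 0 < W.lM * (MM κ W.A₃ G Go - W.εM) := mul_pos hlM (by linarith)
      linarith
  -- the jets
  have J1 : ∀ x : X, ∀ y : X, ∃ (g' : ι → ℝ) (l' : ℝ), x ∈ W.A₁ → 
      HJ (fun r : ℝ × (ι → ℝ) => pe (W.l x) (W.B x y - W.ρ x y * r.1 - W.l x * W.ε x)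
        (Gm r x y - Go x y)) q
        (pe (W.l x) (W.B x y - W.ρ x y * q.1 - W.l x * W.ε x) (G x y - Go x y)) g' l' ∧
      ∀ (δ : ℝ) (p p' : ι → ℝ), 0 ≤ δ →
        0 ≤ pe (W.l x) (W.B x y - W.ρ x y * q.1 - W.l x * W.ε x) (G x y - Go x y) →
        (∀ c, ‖μ c‖ ≤ δ ∧ ‖G x (e c)‖ ≤ p c ∧ ‖G y (e c)‖ ≤ p' c) →
        ∑ c, cs (W.l x) δ (p c) (p' c) ≤ W.ρ x y → l' ≤ 0 := by
    intro x y
    by_cases hxx : x ∈ W.A₁
    · obtain ⟨g', l', t⟩ := pair pej h Go x y (W.l x) (W.B x y) (W.ρ x y) (W.ε x) (hx x hxx).1.le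
      exact ⟨g', l', fun _ => t⟩
    · exact ⟨fun _ => 0, 0, fun t => absurd t hxx⟩
  choose g1 l1 hJ1 using J1
  have J2 : ∀ x : X, ∃ (g' : ι → ℝ) (l' : ℝ),
      HJ (fun r : ℝ × (ι → ℝ) => Real.exp (W.Bm x - W.ρm x * r.1 +
        W.lm * (mx (kp r.1) W.A₃ (Gm r) Go x - W.εm))) q
        (Real.exp (W.Bm x - W.ρm x * q.1 + W.lm * (mx κ W.A₃ G Go x - W.εm))) g' l' ∧
      ∀ (δ gb : ℝ) (p : ι → ℝ), 0 ≤ δ → 0 ≤ gb → 0 ≤ W.lm → 0 ≤ W.εm → (∀ y ∈ W.A₃, 0 ≤ κ y) →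
        mx κ W.A₃ G Go x ≤ W.εm → (∀ c, ∑ y ∈ W.A₃, κ y * ‖G (e c) y‖ ^ 2 ≤ gb) →
        (∀ c, ‖μ c‖ ≤ δ ∧ ‖G x (e c)‖ ≤ p c) →
        ∑ c, cm W.lm W.εm δ gb (p c) ≤ W.ρm x → l' ≤ 0 := fun x =>
    site mxj h Go W.A₃ (fun c => (hec c).2) x (W.Bm x) (W.ρm x) W.lm W.εm
  choose g2 l2 hJ2 using J2
  have K1 := hsum X W.A₁ (fun x r => ∑ y ∈ W.A₂, pe (W.l x)
      (W.B x y - W.ρ x y * r.1 - W.l x * W.ε x) (Gm r x y - Go x y))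
    (fun x => ∑ y ∈ W.A₂, pe (W.l x) (W.B x y - W.ρ x y * q.1 - W.l x * W.ε x) (G x y - Go x y))
    (fun x => ∑ y ∈ W.A₂, l1 x y) (fun x c => ∑ y ∈ W.A₂, g1 x y c)
    (fun x hxx => hsum X W.A₂ (fun y r => pe (W.l x)
      (W.B x y - W.ρ x y * r.1 - W.l x * W.ε x) (Gm r x y - Go x y))
      (fun y => pe (W.l x) (W.B x y - W.ρ x y * q.1 - W.l x * W.ε x) (G x y - Go x y))
      (l1 x) (g1 x) (fun y _ => (hJ1 x y hxx).1))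
  have K2 := hsum X W.A₂ (fun x r => Real.exp (W.Bm x - W.ρm x * r.1 +
        W.lm * (mx (kp r.1) W.A₃ (Gm r) Go x - W.εm)))
    (fun x => Real.exp (W.Bm x - W.ρm x * q.1 + W.lm * (mx κ W.A₃ G Go x - W.εm))) l2 g2
    (fun x _ => (hJ2 x).1)
  obtain ⟨g3, l3, hJ3, hJ3'⟩ := whole maj h Go W.A₃ (fun c => (hec c).2) W.BM W.ρM W.lM W.εM
  have K3 := (ha _ _ _ _ _ _ _ _ (ha _ _ _ _ _ _ _ _ K1 K2).1 hJ3).1
  have hF : (fun r : ℝ × (ι → ℝ) => W.U (kp r.1) Go r.1 (Gm r)) = fun r =>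
      (∑ x ∈ W.A₁, ∑ y ∈ W.A₂, pe (W.l x) (W.B x y - W.ρ x y * r.1 - W.l x * W.ε x)
        (Gm r x y - Go x y)) +
      (∑ x ∈ W.A₂, Real.exp (W.Bm x - W.ρm x * r.1 +
        W.lm * (mx (kp r.1) W.A₃ (Gm r) Go x - W.εm))) +
      Real.exp (W.BM - W.ρM * r.1 + W.lM * (MM (kp r.1) W.A₃ (Gm r) Go - W.εM)) := rfl
  refine ⟨?_, ?_, ?_, good⟩
  · rw [hU]
    exact add_nonneg (add_nonneg p2 p3) p4.le
  · rw [hF]
    exact K3.sm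
  · intro hlt
    obtain ⟨good1, good2, good3⟩ := good hlt
    have hg3 := hgood hlt
    rw [hF, K3.ge]
    have bp : ∀ x ∈ W.A₁, ∀ c, ‖G x (e c)‖ ≤ W.p x (e c) := by
      intro x hxx c
      have t1 := good1 x hxx (e c) (hec c).1
      have t2 := (hx x hxx).2.2 (e c) (hec c).1
      have t3 : ‖G x (e c)‖ ≤ ‖G x (e c) - Go x (e c)‖ + ‖Go x (e c)‖ := by
        calc ‖G x (e c)‖ = ‖(G x (e c) - Go x (e c)) + Go x (e c)‖ := by rw [sub_add_cancel]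
          _ ≤ _ := norm_add_le _ _
      linarith
    have r1 : ∑ x ∈ W.A₁, ∑ y ∈ W.A₂, l1 x y ≤ 0 := by
      refine Finset.sum_nonpos fun x hxx => Finset.sum_nonpos fun y hy => ?_
      exact (hJ1 x y hxx).2 δ (fun c => W.p x (e c)) (fun c => W.p y (e c)) hδ (p0 x hxx y)
        (fun c => ⟨(hg3 c).1, bp x hxx c, bp y (h21 hy) c⟩) (hρ x hxx y hy)
    have r2 : ∑ x ∈ W.A₂, l2 x ≤ 0 := by
      refine Finset.sum_nonpos fun x hxx => ?_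
      exact (hJ2 x).2 δ gb (fun c => W.p x (e c)) hδ hgb hlm.le hεm.le hκ (good2 x hxx)
        (fun c => (hg3 c).2) (fun c => ⟨(hg3 c).1, bp x (h21 hxx) c⟩) (hρm x hxx)
    have r3 : l3 ≤ 0 := hJ3' δ gb hδ hgb hlM.le hεM.le hκ good3 (fun c => (hg3 c).2)
      (fun c => (hg3 c).1) hρM
    exact add_nonpos (add_nonpos r1 r2) r3

end Pool.Agent.ATT.H18
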